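import Pool.Agent.H6L.All

namespace Pool.Agent.H6L.Kept.ForestOrConeLinear

open Pool.Agent.H70IM

/-- Let `H` be a finite graph that is a forest, or has a vertex `h` adjacent to all other vertices
such that `H - h` is a forest. There is a constant `K` such that for all `t ≥ 1` every finite
`K_{1,t}`-free graph `G` without `H` as an induced minor has tree-independence number at most
`K * t`. -/
theorem result {W : Type} [Fintype W] (H : SimpleGraph W)
    (hH : H.IsAcyclic ∨
      ∃ h : W, (∀ w, w ≠ h → H.Adj h w) ∧ (H.induce {w | w ≠ h}).IsAcyclic) :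
    ∃ K : ℕ, ∀ (V : Type) [Fintype V] (G : SimpleGraph V) (t : ℕ), 1 ≤ t →
      IsEmpty (completeBipartiteGraph (Fin 1) (Fin t) ↪g G) → ¬ IsInducedMinor H G →
      treeIndepNum G ≤ K * t := by
  obtain ⟨K, hK, -⟩ := Pool.Agent.H6L.all_linear.{0} H hH
  exact ⟨K, fun V _ G t ht hG hH => hK V G t ht hG hH⟩

end Pool.Agent.H6L.Kept.ForestOrConeLinear
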